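import Pool.Agent.N176.OW.Stm2
import Pool.Agent.Helper601.Mertens

/-!
# The denominator of the large sieve, uniformly in the dimension
-/

open Finset

namespace Pool.Agent.N75.OW

lemma exp_sub_one_le {t : ℝ} (h0 : 0 ≤ t) (h1 : t ≤ 1) : Real.exp t ≤ 1 + 2 * t := by
  have h := convexOn_exp.2 (Set.mem_univ (0 : ℝ)) (Set.mem_univ (1 : ℝ)) (sub_nonneg.2 h1) h0
    (by ring)
  simp only [smul_eq_mul, mul_zero, mul_one, zero_add, Real.exp_zero] at h
  have h2 : Real.exp 1 < 3 := by
    have := Real.exp_one_lt_d9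
    linarith
  nlinarith

lemma exp_le_mul {u : ℝ} (hu : 0 ≤ u) : Real.exp u ≤ Real.exp (u ^ 2 / 2) * (1 + u) := by
  have h1 := Real.le_log_one_add_of_nonneg hu
  have h2 : u - u ^ 2 / 2 ≤ 2 * u / (u + 2) := by
    rw [le_div_iff₀ (by linarith)]
    nlinarith [mul_nonneg hu (mul_nonneg hu hu)]
  have h3 : u ≤ u ^ 2 / 2 + Real.log (1 + u) := by linarith
  calc Real.exp u ≤ Real.exp (u ^ 2 / 2 + Real.log (1 + u)) := Real.exp_le_exp.2 h3
    _ = _ := by rw [Real.exp_add, Real.exp_log (by linarith)]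

lemma sum_sq_le {y w : ℕ} (hy : 2 ≤ y) (hyw : y ≤ w) (k : ℕ) (hk : k ^ 2 ≤ y) (ω : ℕ → ℝ)
    (hω : ∀ l, 0 ≤ ω l ∧ ω l ≤ k) :
    ∑ l ∈ (Ioc y w).filter Nat.Prime, (ω l / l) ^ 2 / 2 ≤ 1 / 2 := by
  have hy0 : (0 : ℝ) < y := by exact_mod_cast (by omega : 0 < y)
  have h1 : ∑ l ∈ (Ioc y w).filter Nat.Prime, (ω l / l) ^ 2 / 2 ≤
      ∑ l ∈ Ioc y w, (k : ℝ) ^ 2 / 2 * ((l : ℝ) ^ 2)⁻¹ := by
    refine (Finset.sum_le_sum fun l _ => ?_).trans
      (Finset.sum_le_sum_of_subset_of_nonneg (Finset.filter_subset _ _) fun l _ _ => by positivity)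
    have h2 : (ω l) ^ 2 ≤ (k : ℝ) ^ 2 := by
      have := hω l
      have h3 := this.1
      have h4 := this.2
      gcongr
    have h3 : (ω l / l) ^ 2 / 2 = (ω l) ^ 2 / 2 * ((l : ℝ) ^ 2)⁻¹ := by
      rw [div_pow]
      ring
    rw [h3]
    gcongr
  have h2 : ∑ l ∈ Ioc y w, ((l : ℝ) ^ 2)⁻¹ ≤ (y : ℝ)⁻¹ := by
    have h3 := sum_Ioc_inv_sq_le_sub (α := ℝ) (by omega : y ≠ 0) hyw
    have h4 : (0 : ℝ) ≤ (w : ℝ)⁻¹ := by positivity
    linarith
  rw [← Finset.mul_sum] at h1
  refine h1.trans ?_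
  have h3 : (k : ℝ) ^ 2 ≤ y := by exact_mod_cast hk
  calc (k : ℝ) ^ 2 / 2 * ∑ l ∈ Ioc y w, ((l : ℝ) ^ 2)⁻¹ ≤ (y : ℝ) / 2 * (y : ℝ)⁻¹ := by
        gcongr
    _ = 1 / 2 := by field_simp

/-- TASK SG -/
theorem sg : Pool.Agent.N176.OW.S_SG := by
  obtain ⟨CM, hCM⟩ := Pool.Agent.Helper601.Mertens.mertens_log
  have hCM0 : 0 ≤ CM := (abs_nonneg _).trans (hCM 1 le_rfl)
  have hl2 : 0 < Real.log 2 := Real.log_pos one_lt_two
  obtain ⟨C₁, hC₁⟩ : ∃ C₁ : ℝ, C₁ = 1 + 2 * (1 + CM / Real.log 2) := ⟨_, rfl⟩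
  have hC₁1 : 1 ≤ C₁ := by
    have : 0 ≤ CM / Real.log 2 := by positivity
    linarith
  refine ⟨max (2 * Real.exp (1 / 2)) C₁, hC₁1.trans (le_max_right _ _), ?_⟩
  intro k y w Q ω hk hy hky hyw hQ hω
  have hw2 : 2 ≤ w := hy.trans hyw
  have hlw : Real.log 2 ≤ Real.log w :=
    Real.log_le_log two_pos (by exact_mod_cast hw2)
  have hlw0 : 0 < Real.log w := hl2.trans_le hlw
  have hk0 : (1 : ℝ) ≤ k := by exact_mod_cast hk
  have hQ1 : C₁ * k * Real.log w ≤ Real.log Q := by
    refine le_trans ?_ hQ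
    gcongr
    exact le_max_right _ _
  have hQpos : (0 : ℝ) < Q := by
    by_contra h
    push Not at h
    have h1 : (Q : ℝ) = 0 := le_antisymm h (Nat.cast_nonneg _)
    rw [h1, Real.log_zero] at hQ1
    have : 0 < C₁ * k * Real.log w := by positivity
    linarith
  set Pr := (Ioc y w).filter Nat.Prime with hPr
  have hPrm : ∀ l ∈ Pr, y < l ∧ l ≤ w ∧ l.Prime := by
    intro l hl
    rw [hPr, Finset.mem_filter, Finset.mem_Ioc] at hl
    exact ⟨hl.1.1, hl.1.2, hl.2⟩
  have hu : ∀ l, 0 ≤ ω l / (l : ℝ) := fun l => div_nonneg (hω l).1 (Nat.cast_nonneg _)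
  obtain ⟨full, hfull⟩ : ∃ full, full = ∏ l ∈ Pr, (1 + ω l / (l : ℝ)) := ⟨_, rfl⟩
  have hfull' : full = ∑ s ∈ Pr.powerset, ∏ l ∈ s, ω l / (l : ℝ) := by
    rw [hfull, Finset.prod_one_add]
  have hfull0 : 0 < full := by
    rw [hfull]
    exact Finset.prod_pos fun l _ => by have := hu l; linarith
  -- the tail
  have htail : ∑ s ∈ Pr.powerset.filter (fun s => ¬ ∏ l ∈ s, l ≤ Q), ∏ l ∈ s, ω l / (l : ℝ) ≤
      full / 2 := by
    have h1 : ∑ s ∈ Pr.powerset.filter (fun s => ¬ ∏ l ∈ s, l ≤ Q), ∏ l ∈ s, ω l / (l : ℝ) ≤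
        ∑ s ∈ Pr.powerset, Real.exp (-(Real.log Q / Real.log w)) *
          ∏ l ∈ s, (ω l / (l : ℝ) * Real.exp (Real.log l / Real.log w)) := by
      refine le_trans ?_ (Finset.sum_le_sum_of_subset_of_nonneg (Finset.filter_subset
        (fun s => ¬ ∏ l ∈ s, l ≤ Q) _) fun s _ _ => mul_nonneg (Real.exp_nonneg _)
        (Finset.prod_nonneg fun l _ => mul_nonneg (hu l) (Real.exp_nonneg _)))
      apply Finset.sum_le_sum
      intro s hs
      rw [Finset.mem_filter, Finset.mem_powerset] at hs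
      rw [Finset.prod_mul_distrib, ← Real.exp_sum, mul_left_comm, ← Real.exp_add,
        ← Finset.sum_div]
      have h2 : Real.log Q ≤ ∑ l ∈ s, Real.log (l : ℝ) := by
        have h3 : ∑ l ∈ s, Real.log (l : ℝ) = Real.log ((∏ l ∈ s, l : ℕ) : ℝ) := by
          rw [Nat.cast_prod, Real.log_prod]
          intro l hl
          have := (hPrm l (hs.1 hl)).2.2.pos
          exact_mod_cast this.ne'
        rw [h3]
        refine Real.log_le_log hQpos ?_
        exact_mod_cast (not_le.1 hs.2).le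
      have h4 : 1 ≤ Real.exp (-(Real.log Q / Real.log w) + (∑ l ∈ s, Real.log (l : ℝ)) /
          Real.log w) := by
        apply Real.one_le_exp
        rw [neg_add_eq_sub, ← sub_div]
        exact div_nonneg (by linarith) hlw0.le
      have h5 : 0 ≤ ∏ l ∈ s, ω l / (l : ℝ) := Finset.prod_nonneg fun l _ => hu l
      nlinarith
    refine h1.trans ?_
    rw [← Finset.mul_sum, ← Finset.prod_one_add]
    have h2 : ∏ l ∈ Pr, (1 + ω l / (l : ℝ) * Real.exp (Real.log l / Real.log w)) ≤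
        full * Real.exp (2 * k * (1 + CM / Real.log 2)) := by
      have h3 : ∀ l ∈ Pr, 1 + ω l / (l : ℝ) * Real.exp (Real.log l / Real.log w) ≤
          (1 + ω l / (l : ℝ)) * Real.exp (ω l / (l : ℝ) * (2 * (Real.log l / Real.log w))) := by
        intro l hl
        obtain ⟨hl1, hl2', hl3⟩ := hPrm l hl
        have hl0 : (1 : ℝ) ≤ l := by exact_mod_cast hl3.one_lt.le
        have ht0 : 0 ≤ Real.log l / Real.log w := div_nonneg (Real.log_nonneg hl0) hlw0.le
        have ht1 : Real.log l / Real.log w ≤ 1 := by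
          rw [div_le_one hlw0]
          exact Real.log_le_log (by linarith) (by exact_mod_cast hl2')
        have h4 := exp_sub_one_le ht0 ht1
        have h5 := hu l
        have h6 := Real.add_one_le_exp (ω l / (l : ℝ) * (2 * (Real.log l / Real.log w)))
        have h7 : 0 ≤ ω l / (l : ℝ) * (2 * (Real.log l / Real.log w)) := by positivity
        calc 1 + ω l / (l : ℝ) * Real.exp (Real.log l / Real.log w)
            ≤ 1 + ω l / (l : ℝ) * (1 + 2 * (Real.log l / Real.log w)) := by gcongr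
          _ ≤ (1 + ω l / (l : ℝ)) * (ω l / (l : ℝ) * (2 * (Real.log l / Real.log w)) + 1) := by
              nlinarith
          _ ≤ _ := by gcongr
      calc ∏ l ∈ Pr, (1 + ω l / (l : ℝ) * Real.exp (Real.log l / Real.log w))
          ≤ ∏ l ∈ Pr, ((1 + ω l / (l : ℝ)) *
            Real.exp (ω l / (l : ℝ) * (2 * (Real.log l / Real.log w)))) :=
            Finset.prod_le_prod (fun l _ => by
              have := hu l
              positivity) h3
        _ = full * Real.exp (∑ l ∈ Pr, ω l / (l : ℝ) * (2 * (Real.log l / Real.log w))) := by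
            rw [Finset.prod_mul_distrib, ← Real.exp_sum, hfull]
        _ ≤ _ := by
            refine mul_le_mul_of_nonneg_left (Real.exp_le_exp.2 ?_) hfull0.le
            have h4 : ∑ l ∈ Pr, ω l / (l : ℝ) * (2 * (Real.log l / Real.log w)) ≤
                ∑ l ∈ Pr, 2 * k / Real.log w * (Real.log l / l) := by
              apply Finset.sum_le_sum
              intro l hl
              obtain ⟨hl1, hl2', hl3⟩ := hPrm l hl
              have hl0 : (1 : ℝ) ≤ l := by exact_mod_cast hl3.one_lt.le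
              have hlog := Real.log_nonneg hl0
              have h5 := (hω l).2
              calc ω l / (l : ℝ) * (2 * (Real.log l / Real.log w)) =
                    ω l * (2 / Real.log w * (Real.log l / l)) := by ring
                _ ≤ k * (2 / Real.log w * (Real.log l / l)) := by gcongr
                _ = _ := by ring
            have h5 : ∑ l ∈ Pr, Real.log l / (l : ℝ) ≤ Real.log w + CM := by
              have h6 := hCM w (by omega)
              have h7 := (abs_le.1 h6).2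
              have h8 : ∑ l ∈ Pr, Real.log l / (l : ℝ) ≤
                  ∑ p ∈ (Finset.Icc 1 w).filter Nat.Prime, Real.log p / p := by
                apply Finset.sum_le_sum_of_subset_of_nonneg
                · intro l hl
                  obtain ⟨hl1, hl2', hl3⟩ := hPrm l hl
                  rw [Finset.mem_filter, Finset.mem_Icc]
                  exact ⟨⟨hl3.pos, hl2'⟩, hl3⟩
                · intro l hl _
                  rw [Finset.mem_filter] at hl
                  have hl0 : (1 : ℝ) ≤ l := by exact_mod_cast hl.2.one_lt.le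
                  exact div_nonneg (Real.log_nonneg hl0) (by linarith)
              linarith
            refine h4.trans ?_
            rw [← Finset.mul_sum]
            calc 2 * k / Real.log w * ∑ l ∈ Pr, Real.log l / (l : ℝ)
                ≤ 2 * k / Real.log w * (Real.log w + CM) := by gcongr
              _ = 2 * k * (1 + CM / Real.log w) := by field_simp
              _ ≤ 2 * k * (1 + CM / Real.log 2) := by gcongr
    calc Real.exp (-(Real.log Q / Real.log w)) *
          ∏ l ∈ Pr, (1 + ω l / (l : ℝ) * Real.exp (Real.log l / Real.log w))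
        ≤ Real.exp (-(C₁ * k)) * (full * Real.exp (2 * k * (1 + CM / Real.log 2))) := by
          refine mul_le_mul (Real.exp_le_exp.2 ?_) h2 (Finset.prod_nonneg fun l _ => ?_)
            (Real.exp_nonneg _)
          · rw [neg_le_neg_iff, le_div_iff₀ hlw0]
            exact hQ1
          · have := mul_nonneg (hu l) (Real.exp_nonneg (Real.log l / Real.log w))
            linarith
      _ = full * Real.exp (-k) := by
          rw [mul_left_comm, ← Real.exp_add, hC₁]
          congr 2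
          ring
      _ ≤ full / 2 := by
          rw [div_eq_mul_inv]
          refine mul_le_mul_of_nonneg_left ?_ hfull0.le
          have h6 : Real.exp (-k : ℝ) ≤ Real.exp (-1) := Real.exp_le_exp.2 (by linarith)
          refine h6.trans ?_
          rw [Real.exp_neg]
          have h7 : (2 : ℝ) ≤ Real.exp 1 := by
            have := Real.add_one_le_exp (1 : ℝ)
            linarith
          gcongr
  have hsplit : full = ∑ s ∈ Pr.powerset.filter (fun s => ∏ l ∈ s, l ≤ Q),
      ∏ l ∈ s, ω l / (l : ℝ) + ∑ s ∈ Pr.powerset.filter (fun s => ¬ ∏ l ∈ s, l ≤ Q),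
      ∏ l ∈ s, ω l / (l : ℝ) := by
    rw [hfull', Finset.sum_filter_add_sum_filter_not]
  have hmain : full ≤ 2 * ∑ s ∈ Pr.powerset.filter (fun s => ∏ l ∈ s, l ≤ Q),
      ∏ l ∈ s, ω l / (l : ℝ) := by linarith
  have hexp : Real.exp (∑ l ∈ Pr, ω l / (l : ℝ)) ≤ Real.exp (1 / 2) * full := by
    rw [Real.exp_sum, hfull]
    calc ∏ l ∈ Pr, Real.exp (ω l / (l : ℝ)) ≤
          ∏ l ∈ Pr, (Real.exp ((ω l / (l : ℝ)) ^ 2 / 2) * (1 + ω l / (l : ℝ))) :=
          Finset.prod_le_prod (fun l _ => Real.exp_nonneg _) fun l _ => exp_le_mul (hu l)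
      _ = Real.exp (∑ l ∈ Pr, (ω l / (l : ℝ)) ^ 2 / 2) * ∏ l ∈ Pr, (1 + ω l / (l : ℝ)) := by
          rw [Finset.prod_mul_distrib, Real.exp_sum]
      _ ≤ _ := by
          rw [← hfull]
          refine mul_le_mul_of_nonneg_right (Real.exp_le_exp.2 ?_) hfull0.le
          exact sum_sq_le hy hyw k hky ω hω
  refine hexp.trans ?_
  have hr0 : 0 ≤ ∑ s ∈ Pr.powerset.filter (fun s => ∏ l ∈ s, l ≤ Q), ∏ l ∈ s, ω l / (l : ℝ) :=
    Finset.sum_nonneg fun s _ => Finset.prod_nonneg fun l _ => hu l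
  calc Real.exp (1 / 2) * full ≤ Real.exp (1 / 2) * (2 * ∑ s ∈ Pr.powerset.filter
        (fun s => ∏ l ∈ s, l ≤ Q), ∏ l ∈ s, ω l / (l : ℝ)) := by gcongr
    _ = 2 * Real.exp (1 / 2) * ∑ s ∈ Pr.powerset.filter
        (fun s => ∏ l ∈ s, l ≤ Q), ∏ l ∈ s, ω l / (l : ℝ) := by ring
    _ ≤ _ := mul_le_mul_of_nonneg_right (le_max_left _ _) hr0

end Pool.Agent.N75.OW
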